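import Pool.Agent.H6.MsC

namespace Pool.Agent.Results.MP_593b6a_co.Yes

open Pool.Agent.H6.Ms

theorem result (k n : ℕ) (hk : 3 ≤ k) (hn : 5 ≤ n) :
    ∃ (V : Type) (_ : Fintype V) (_ : DecidableEq V) (G : SimpleGraph V),
      Fintype.card V = n ∧ ¬ G.IsHamiltonian ∧ (msGraph G k).IsHamiltonian := by
  obtain ⟨m, rfl⟩ : ∃ m, n = m + 5 := ⟨n - 5, by omega⟩
  obtain ⟨j, rfl⟩ : ∃ j, k = j + 3 := ⟨k - 3, by omega⟩
  let s : Fin (m + 2) ⊕ Bool → Bool := Sum.isLeft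
  have hH : ∀ u v, (u ≠ v ∧ s u = s v) → (v ≠ u ∧ s v = s u) := fun u v h => ⟨h.1.symm, h.2.symm⟩
  have hU : ∀ w, w ∈ ((Finset.univ.image Sum.inl : Finset (Fin (m + 2) ⊕ Bool)) : Set _) ∪
      {Sum.inl 0, Sum.inl 1} ↔ s w = true := by
    rintro (w | w) <;> simp [s]
  obtain ⟨u', -, h⟩ := clique hH (x := Sum.inl 0) (y := Sum.inl 1) (by simp)
    (Finset.univ.image Sum.inl) fun u hu v hv e => ⟨e, ((hU u).1 hu).trans ((hU v).1 hv).symm⟩
  obtain ⟨a, ha⟩ := blade hH (x := Sum.inr false) (y := Sum.inr true) (by simp)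
    (by rw [hU]; simp [s]) (by rw [hU]; simp [s]) (by
      rintro (w | _ | _) a b
      · rw [hU]; rfl
      · exact absurd rfl a
      · exact absurd rfl b) ⟨by simp, rfl⟩ h j
  exact ⟨_, inferInstance, inferInstance, cone s, by simp,
    not_ham s (x := Sum.inl 0) (y := Sum.inr true) (by simp [s]), ham s _ (by omega) a ha⟩

end Pool.Agent.Results.MP_593b6a_co.Yes
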